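import Mathlib
import Pool.Agent.Lib.helper2.IRPath

set_option autoImplicit false

namespace Pool.Agent.Results.MP_cd4b59_co.Disproof

/-- Every vertex of `D` has a `D`-private neighbour. -/
def Irredundant {V : Type} (G : SimpleGraph V) (D : Finset V) : Prop :=
  ∀ v ∈ D, ∃ w, (w = v ∨ G.Adj v w) ∧ ∀ u ∈ D, u ≠ v → ¬ (w = u ∨ G.Adj u w)

/-- `D` is an irredundant set of maximum size. -/
def IsIRSet {V : Type} (G : SimpleGraph V) (D : Finset V) : Prop :=
  Irredundant G D ∧ ∀ T, Irredundant G T → T.card ≤ D.card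

/-- The IR-graph of `G`. -/
def IRGraph {V : Type} [DecidableEq V] (G : SimpleGraph V) : SimpleGraph {D // IsIRSet G D} :=
  SimpleGraph.fromRel fun D D' =>
    ∃ u ∈ D.1, ∃ v ∈ D'.1, G.Adj u v ∧ D'.1 = insert v (D.1.erase u)

open Pool.Agent.Lib.helper2.IRPath in
theorem result : ∃ (n m : ℕ) (G : SimpleGraph (Fin m)), 3 ≤ n ∧
    Nonempty (SimpleGraph.pathGraph n ≃g IRGraph G) :=
  ⟨7, 9, G, by norm_num, iso_of (SimpleGraph.pathGraph 7) (IsIRSet G)
    (fun D D' => ∃ v ∈ D, ∃ v' ∈ D', G.Adj v v' ∧ D' = insert v' (D.erase v)) f hf hQ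
    (fun i j => by rw [SimpleGraph.pathGraph_adj]; exact r1 i j)⟩

end Pool.Agent.Results.MP_cd4b59_co.Disproof
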